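import Pool.Agent.Lib.MP_d92bf9_co.H40Draw
import Pool.Agent.Lib.MP_d92bf9_co.H5Comp

open Pool.Agent.Lib.MP_d92bf9_co

/-- There is a monotone, union-closed, continuous graph parameter strictly above bandwidth whose
reduced version is bounded on planar graphs (graphs with a crossing-free drawing in the plane). -/
theorem Pool.Agent.Results.MP_d92bf9_co.ContinuousParam.result :
    ∃ f : Param, IsoInvariant f ∧ MonotoneParam f ∧ UnionClosed f ∧ ContinuousParam f ∧
      BoundedBy bandwidth f ∧ ¬ BoundedBy f bandwidth ∧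
      ∃ c : ℕ, ∀ (V : Type) [Finite V] [Nonempty V] (G : SimpleGraph V),
        PlanarDrawn G → Reducible f c V ⟨G, ⊥⟩ := by
  obtain ⟨c, h⟩ := H40.drawn_reducible
  exact ⟨H5.compParam c, H5.comp_iso _, H5.comp_mono _, H5.comp_union _, H5.comp_continuous _,
    H5.bw_boundedBy_comp _, H5.comp_not_boundedBy _, 0,
    fun V _ _ G hG => H5.reducible_comp (h V G hG)⟩
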